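import Pool.Agent.Helper48.AX.Defs

set_option autoImplicit false

open scoped MeasureTheory ENNReal NNReal
open InnerProductGeometry

namespace AX

theorem qs_angle (W X : EuclideanSpace ℝ (Fin 3)) (r : ℝ) (hr : 0 < r) (hW : ‖W‖ = r)
    (hX : ‖X‖ = r) : Real.arcsin (dist W X / (2 * r)) = angle W X / 2 := by
  have h0 := angle_nonneg W X
  have hpi := angle_le_pi W X
  have hsin : 0 ≤ Real.sin (angle W X / 2) :=
    Real.sin_nonneg_of_nonneg_of_le_pi (by linarith) (by linarith [Real.pi_pos])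
  have hcos : Real.cos (angle W X) = 1 - 2 * Real.sin (angle W X / 2) ^ 2 := by
    have h1 := Real.cos_two_mul (angle W X / 2)
    have h2 := Real.sin_sq_add_cos_sq (angle W X / 2)
    rw [show 2 * (angle W X / 2) = angle W X by ring] at h1
    linarith
  have hin : inner ℝ W X = r * r * Real.cos (angle W X) := by
    have := cos_angle_mul_norm_mul_norm W X
    rw [← this, hW, hX]
    ring
  have hd : dist W X ^ 2 = (2 * r * Real.sin (angle W X / 2)) ^ 2 := by
    rw [dist_eq_norm, @norm_sub_sq_real, hW, hX, hin, hcos]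
    ring
  have hd2 : dist W X = 2 * r * Real.sin (angle W X / 2) := by
    have h3 : 0 ≤ 2 * r * Real.sin (angle W X / 2) := by positivity
    exact (pow_left_inj₀ dist_nonneg h3 two_ne_zero).1 hd
  rw [hd2, mul_div_cancel_left₀ _ (by positivity)]
  exact Real.arcsin_sin (by linarith [Real.pi_pos]) (by linarith)

theorem qs_span (x z : EuclideanSpace ℝ (Fin 3)) (a b : ℝ) (ha : 0 ≤ a) (hb : 0 ≤ b)
    (h : a • x + b • z ≠ 0) :
    angle x z = angle x (a • x + b • z) + angle (a • x + b • z) z := by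
  refine angle_eq_angle_add_add_angle_add_of_mem_span h ?_
  rw [Submodule.mem_span_pair]
  exact ⟨⟨a, ha⟩, ⟨b, hb⟩, rfl⟩

theorem st_QS : ST_QS := by
  intro W X Y Z r α β γ δ hr hW hX hY hZ hα hβ hγ hδ heq hne
  rw [qs_angle W X r hr hW hX, qs_angle Y Z r hr hY hZ, qs_angle W Y r hr hW hY,
    qs_angle X Z r hr hX hZ]
  have h1 := qs_span W Y α β hα hβ hne
  have hne2 : γ • X + δ • Z ≠ 0 := heq ▸ hne
  have h2 := qs_span X Z γ δ hγ hδ hne2
  rw [← heq] at h2
  have h3 := angle_le_angle_add_angle W (α • W + β • Y) X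
  have h4 := angle_le_angle_add_angle Y (α • W + β • Y) Z
  rw [angle_comm (α • W + β • Y) X] at h3
  rw [angle_comm Y (α • W + β • Y)] at h4
  linarith

end AX
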